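import Mathlib

set_option autoImplicit false
set_option linter.unusedSectionVars false

/-!
# Identity testing for sums of near-products of linear forms

`f = ∑_S c_S ∏_{j ∉ S} ℓ_j` with `|S| ≤ R` and `deg c_S ≤ δ + |S|`.
-/

namespace Pool.Agent.H562R2.Sdit

open MvPolynomial Finset

noncomputable section

variable {K : Type*} [Field K] {m : ℕ}

/-- the linear form with coefficient vector `a` -/
def lin (a : Fin m → K) : MvPolynomial (Fin m) K := ∑ i, C (a i) * X i

/-- dot product -/
def dot (a w : Fin m → K) : K := ∑ i, a i * w i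

lemma lin_zero : lin (0 : Fin m → K) = 0 := by simp [lin]

lemma lin_add (a b : Fin m → K) : lin (a + b) = lin a + lin b := by
  simp [lin, add_mul, Finset.sum_add_distrib]

lemma lin_smul (c : K) (a : Fin m → K) : lin (c • a) = C c * lin a := by
  simp only [lin, Pi.smul_apply, smul_eq_mul, map_mul, Finset.mul_sum, mul_assoc]

lemma eval_lin (a x : Fin m → K) : eval x (lin a) = dot a x := by
  simp [lin, dot]

lemma lin_single [DecidableEq (Fin m)] (i : Fin m) : lin (Pi.single i (1 : K)) = X i := by
  unfold lin
  rw [Finset.sum_eq_single i]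
  · simp
  · intro j _ hj; simp [Pi.single_eq_of_ne hj]
  · intro h; exact absurd (Finset.mem_univ i) h

lemma lin_inj {a : Fin m → K} (h : ∀ x, dot a x = 0) : a = 0 := by
  classical
  funext i
  have := h (Pi.single i 1)
  unfold dot at this
  rw [Finset.sum_eq_single i] at this
  · simpa using this
  · intro j _ hj; simp [Pi.single_eq_of_ne hj]
  · intro h; exact absurd (Finset.mem_univ i) h

lemma lin_ne_zero {a : Fin m → K} (ha : a ≠ 0) : lin a ≠ 0 := by
  intro h
  apply ha
  apply lin_inj
  intro x
  rw [← eval_lin, h, map_zero]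

lemma lin_isHomogeneous (a : Fin m → K) : (lin a).IsHomogeneous 1 := by
  unfold lin
  apply MvPolynomial.IsHomogeneous.sum
  intro i _
  have h1 := MvPolynomial.isHomogeneous_C (Fin m) (a i)
  have h2 := MvPolynomial.isHomogeneous_X K i
  simpa using h1.mul h2

lemma totalDegree_lin {a : Fin m → K} (ha : a ≠ 0) : (lin a).totalDegree = 1 :=
  (lin_isHomogeneous a).totalDegree (lin_ne_zero ha)

lemma totalDegree_lin_le (a : Fin m → K) : (lin a).totalDegree ≤ 1 := by
  by_cases h : a = 0
  · subst h; simp [lin_zero]
  · exact (totalDegree_lin h).le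

lemma lin_irreducible {a : Fin m → K} (ha : a ≠ 0) : Irreducible (lin a) := by
  apply irreducible_of_totalDegree_eq_one (totalDegree_lin ha)
  intro x hx
  rw [isUnit_iff_ne_zero]
  rintro rfl
  apply lin_ne_zero ha
  ext i
  simpa using hx i

/-! ### The expansion along a direction `w` relative to a form `b` with `b·w = 1` -/

/-- `X_i ↦ (X_i - w_i ℓ_b) + w_i T` -/
def Phi (b w : Fin m → K) : MvPolynomial (Fin m) K →ₐ[K] Polynomial (MvPolynomial (Fin m) K) :=
  aeval fun i => Polynomial.C (X i - C (w i) * lin b) + Polynomial.C (C (w i)) * Polynomial.X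

/-- projected coefficient vector -/
def pr (b w a : Fin m → K) : Fin m → K := fun i => a i - dot a w * b i

lemma lin_pr (b w a : Fin m → K) : lin (pr b w a) = lin a - C (dot a w) * lin b := by
  unfold lin pr
  simp only [map_sub, map_mul, sub_mul, Finset.sum_sub_distrib, Finset.mul_sum, mul_assoc]

lemma Phi_lin (b w a : Fin m → K) :
    Phi b w (lin a) = Polynomial.C (lin (pr b w a)) + Polynomial.C (C (dot a w)) * Polynomial.X := by
  have h1 : Phi b w (lin a) = ∑ i, Polynomial.C (C (a i)) *
      (Polynomial.C (X i - C (w i) * lin b) + Polynomial.C (C (w i)) * Polynomial.X) := by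
    unfold lin Phi
    simp only [map_sum, map_mul, aeval_X]
    refine Finset.sum_congr rfl fun i _ => ?_
    congr 1
    simp only [algHom_C]
    rfl
  rw [h1, lin_pr]
  simp only [mul_add, Finset.sum_add_distrib]
  congr 1
  · simp only [← Polynomial.C_mul]
    rw [← map_sum]
    congr 1
    simp only [mul_sub, Finset.sum_sub_distrib]
    congr 1
    unfold dot
    rw [map_sum, Finset.sum_mul]
    refine Finset.sum_congr rfl fun i _ => ?_
    rw [map_mul]; ring
  · simp only [← mul_assoc, ← Polynomial.C_mul, ← Finset.sum_mul]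
    congr 1
    unfold dot
    simp only [map_sum, map_mul]

lemma pr_self {b w : Fin m → K} (h : dot b w = 1) : pr b w b = 0 := by
  funext i; simp [pr, h]

lemma Phi_self {b w : Fin m → K} (h : dot b w = 1) : Phi b w (lin b) = Polynomial.X := by
  rw [Phi_lin, pr_self h, lin_zero, h]; simp

/-- evaluating `T` at `ℓ_b` gives the polynomial back -/
lemma Phi_eval (b w : Fin m → K) (f : MvPolynomial (Fin m) K) :
    (Phi b w f).eval (lin b) = f := by
  have : ((Polynomial.evalRingHom (lin b)).comp (Phi b w : MvPolynomial (Fin m) K →+* _)) =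
      RingHom.id _ := by
    apply MvPolynomial.ringHom_ext
    · intro r
      simp only [RingHom.comp_apply, RingHom.coe_coe, algHom_C, RingHom.id_apply]
      simp [Polynomial.algebraMap_apply]
    · intro i
      simp [Phi]
  have := congrArg (fun φ => φ f) this
  simpa using this

/-- evaluation at a point -/
lemma Phi_point (b w x : Fin m → K) (t : K) (f : MvPolynomial (Fin m) K) :
    ((Phi b w f).map (eval x)).eval t = eval (fun i => x i + (t - dot b x) * w i) f := by
  have : ((Polynomial.evalRingHom t).comp ((Polynomial.mapRingHom (eval x)).comp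
      (Phi b w : MvPolynomial (Fin m) K →+* _))) =
      (eval (fun i => x i + (t - dot b x) * w i)) := by
    apply MvPolynomial.ringHom_ext
    · intro r
      simp only [RingHom.comp_apply, RingHom.coe_coe, algHom_C]
      simp [Polynomial.algebraMap_apply]
    · intro i
      simp [Phi, eval_lin]
      ring
  have := congrArg (fun φ => φ f) this
  simpa using this

/-- if a coefficient is nonzero at `x`, then `f` is nonzero somewhere on `x + K w` -/
lemma extend [Infinite K] (b w x : Fin m → K) (f : MvPolynomial (Fin m) K) (k : ℕ)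
    (h : eval x ((Phi b w f).coeff k) ≠ 0) : ∃ t : K, eval (fun i => x i + t * w i) f ≠ 0 := by
  have hne : (Phi b w f).map (eval x) ≠ 0 := by
    intro h0
    apply h
    have := congrArg (fun p => Polynomial.coeff p k) h0
    simpa [Polynomial.coeff_map] using this
  obtain ⟨t, ht⟩ : ∃ t : K, ((Phi b w f).map (eval x)).eval t ≠ 0 := by
    by_contra hcon
    push Not at hcon
    exact hne (Polynomial.funext (by simpa using hcon))
  refine ⟨t - dot b x, ?_⟩
  rwa [← Phi_point]

/-! ### the classes -/

/-- products of at most `d` linear forms -/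
def prods (d : ℕ) : Set (MvPolynomial (Fin m) K) :=
  {g | ∃ M : Multiset (Fin m → K), M.card ≤ d ∧ g = (M.map lin).prod}

/-- generators of the class of near-products -/
def gens {ι : Type*} [DecidableEq ι] (J : Finset ι) (a : ι → Fin m → K) (R d : ℕ) :
    Set (MvPolynomial (Fin m) K) :=
  {g | ∃ S ⊆ J, S.card ≤ R ∧ ∃ M : Multiset (Fin m → K), M.card ≤ d + S.card ∧
    g = (M.map lin).prod * ∏ j ∈ J \ S, lin (a j)}

lemma coeff_prods (b w : Fin m → K) (M : Multiset (Fin m → K)) :
    ∀ k : ℕ, (Phi b w (M.map lin).prod).coeff k ∈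
      Submodule.span K {g : MvPolynomial (Fin m) K | ∃ M' : Multiset (Fin m → K),
        M'.card + k ≤ M.card ∧ g = (M'.map lin).prod} := by
  induction M using Multiset.induction with
  | empty =>
    intro k
    simp only [Multiset.map_zero, Multiset.prod_zero, map_one]
    rw [Polynomial.coeff_one]
    split_ifs with h
    · apply Submodule.subset_span
      exact ⟨0, by simp [h], by simp⟩
    · exact Submodule.zero_mem _
  | cons a M ih =>
    intro k
    simp only [Multiset.map_cons, Multiset.prod_cons, map_mul, Phi_lin]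
    rw [add_mul, Polynomial.coeff_add, Polynomial.coeff_C_mul]
    apply Submodule.add_mem
    · -- multiply by lin (pr a)
      have h1 := ih k
      refine Submodule.span_induction (p := fun g _ => lin (pr b w a) * g ∈ _) ?_ ?_ ?_ ?_ h1
      · rintro g ⟨M', hM', rfl⟩
        apply Submodule.subset_span
        exact ⟨pr b w a ::ₘ M', by simp; omega, by simp⟩
      · simp
      · intro g h _ _ hg hh; rw [mul_add]; exact Submodule.add_mem _ hg hh
      · intro c g _ hg; rw [mul_smul_comm]; exact Submodule.smul_mem _ _ hg
    · cases k with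
      | zero =>
        rw [mul_assoc, Polynomial.coeff_C_mul, Polynomial.coeff_X_mul_zero, mul_zero]
        exact Submodule.zero_mem _
      | succ k =>
        rw [mul_assoc, Polynomial.coeff_C_mul, Polynomial.coeff_X_mul]
        have h1 := ih k
        rw [← smul_eq_C_mul]
        apply Submodule.smul_mem
        refine Submodule.span_mono ?_ h1
        rintro g ⟨M', hM', rfl⟩
        exact ⟨M', by simp; omega, rfl⟩

lemma coeff_forms {ι : Type*} [DecidableEq ι] (b w : Fin m → K) (a : ι → Fin m → K)
    (E : Finset ι) : ∀ k : ℕ, (Phi b w (∏ j ∈ E, lin (a j))).coeff k ∈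
      Submodule.span K {g : MvPolynomial (Fin m) K | ∃ T ⊆ E, T.card = k ∧
        g = ∏ j ∈ E \ T, lin (pr b w (a j))} := by
  induction E using Finset.induction with
  | empty =>
    intro k
    simp only [Finset.prod_empty, map_one]
    rw [Polynomial.coeff_one]
    split_ifs with h
    · apply Submodule.subset_span
      exact ⟨∅, by simp, by simp [h], by simp⟩
    · exact Submodule.zero_mem _
  | insert i E hi ih =>
    intro k
    rw [Finset.prod_insert hi, map_mul, Phi_lin, add_mul, Polynomial.coeff_add,
      Polynomial.coeff_C_mul]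
    apply Submodule.add_mem
    · refine Submodule.span_induction (p := fun g _ => lin (pr b w (a i)) * g ∈ _) ?_ ?_ ?_ ?_ (ih k)
      · rintro g ⟨T, hT, hTk, rfl⟩
        apply Submodule.subset_span
        have hiT : i ∉ T := fun h => hi (hT h)
        refine ⟨T, hT.trans (Finset.subset_insert _ _), hTk, ?_⟩
        rw [Finset.insert_sdiff_of_notMem _ hiT, Finset.prod_insert]
        simp [hi]
      · simp
      · intro g h _ _ hg hh; rw [mul_add]; exact Submodule.add_mem _ hg hh
      · intro c g _ hg; rw [mul_smul_comm]; exact Submodule.smul_mem _ _ hg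
    · cases k with
      | zero =>
        rw [mul_assoc, Polynomial.coeff_C_mul, Polynomial.coeff_X_mul_zero, mul_zero]
        exact Submodule.zero_mem _
      | succ k =>
        rw [mul_assoc, Polynomial.coeff_C_mul, Polynomial.coeff_X_mul, ← smul_eq_C_mul]
        apply Submodule.smul_mem
        refine Submodule.span_mono ?_ (ih k)
        rintro g ⟨T, hT, hTk, rfl⟩
        have hiT : i ∉ T := fun h => hi (hT h)
        refine ⟨insert i T, Finset.insert_subset_insert _ hT, by
          rw [Finset.card_insert_of_notMem hiT, hTk], ?_⟩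
        rw [Finset.insert_sdiff_insert, Finset.sdiff_insert_of_notMem hi]

/-- **Coefficient lemma.** -/
lemma coeff_gens {ι : Type*} [DecidableEq ι] (b w : Fin m → K) (J : Finset ι)
    (a : ι → Fin m → K) (R d k R' d' : ℕ) (J1 : Finset ι)
    (hJ1 : ∀ x, x ∈ J1 ↔ x ∈ J ∧ pr b w (a x) = 0)
    (hR : R + k ≤ R' + J1.card) (hd : d + J1.card ≤ d' + k)
    (f : MvPolynomial (Fin m) K) (hf : f ∈ Submodule.span K (gens J a R d)) :
    (Phi b w f).coeff k ∈
      Submodule.span K (gens (J \ J1) (fun j => pr b w (a j)) R' d') := by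
  refine Submodule.span_induction (p := fun f _ => (Phi b w f).coeff k ∈
      Submodule.span K (gens (J \ J1) (fun j => pr b w (a j)) R' d')) ?_ ?_ ?_ ?_ hf
  · rintro g ⟨S, hSJ, hSR, M, hM, rfl⟩
    rw [map_mul, Polynomial.coeff_mul]
    apply Submodule.sum_mem
    rintro ⟨k1, k2⟩ hk
    have hk' : k1 + k2 = k := by simpa using hk
    simp only
    have h1 := coeff_prods b w M k1
    have h2 := coeff_forms b w a (J \ S) k2
    have h3 := Submodule.mul_mem_mul h1 h2
    rw [Submodule.span_mul_span] at h3
    refine (Submodule.span_le.mpr ?_) h3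
    intro q hq
    rw [Set.mem_mul] at hq
    obtain ⟨p1, ⟨M', hM', rfl⟩, p2, ⟨T, hT, hTk, rfl⟩, rfl⟩ := hq
    by_cases hsub : J1 ⊆ S ∪ T
    · apply Submodule.subset_span
      have hST : Disjoint S T := by
        rw [Finset.disjoint_left]
        intro x hx hxT
        exact (Finset.mem_sdiff.mp (hT hxT)).2 hx
      have hcard : ((S ∪ T) \ J1).card + J1.card = S.card + k2 := by
        rw [← hTk, ← Finset.card_union_of_disjoint hST]
        exact Finset.card_sdiff_add_card_eq_card hsub
      refine ⟨(S ∪ T) \ J1, ?_, ?_, M', ?_, ?_⟩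
      · intro x hx
        rw [Finset.mem_sdiff, Finset.mem_union] at hx
        rw [Finset.mem_sdiff]
        refine ⟨?_, hx.2⟩
        rcases hx.1 with h | h
        · exact hSJ h
        · exact (Finset.mem_sdiff.mp (hT h)).1
      · omega
      · omega
      · congr 1
        apply Finset.prod_congr _ (fun _ _ => rfl)
        ext x
        simp only [Finset.mem_sdiff, Finset.mem_union]
        constructor
        · rintro ⟨⟨h1, h2⟩, h3⟩
          have hx1 : x ∉ J1 := by
            intro h
            rcases Finset.mem_union.mp (hsub h) with h' | h'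
            · exact h2 h'
            · exact h3 h'
          exact ⟨⟨h1, hx1⟩, fun h => by rcases h.1 with h' | h'; exact h2 h'; exact h3 h'⟩
        · rintro ⟨⟨h1, h2⟩, h3⟩
          exact ⟨⟨h1, fun h => h3 ⟨Or.inl h, h2⟩⟩, fun h => h3 ⟨Or.inr h, h2⟩⟩
    · -- a zero factor
      obtain ⟨x, hx, hx'⟩ := Finset.not_subset.mp hsub
      have hx0 : pr b w (a x) = 0 := ((hJ1 x).mp hx).2
      have hxJ : x ∈ J := ((hJ1 x).mp hx).1
      have : ∏ j ∈ (J \ S) \ T, lin (pr b w (a j)) = 0 := by
        apply Finset.prod_eq_zero (i := x)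
        · rw [Finset.mem_union, not_or] at hx'
          simp [hxJ, hx'.1, hx'.2]
        · rw [hx0, lin_zero]
      rw [this, mul_zero]
      exact Submodule.zero_mem _
  · simp
  · intro p q _ _ hp hq
    rw [map_add, Polynomial.coeff_add]
    exact Submodule.add_mem _ hp hq
  · intro c p _ hp
    rw [map_smul, Polynomial.coeff_smul]
    exact Submodule.smul_mem _ _ hp

/-- every polynomial of total degree `≤ d` is a combination of products of `≤ d` linear forms -/
lemma mem_span_prods (d : ℕ) (c : MvPolynomial (Fin m) K) (hc : c.totalDegree ≤ d) :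
    c ∈ Submodule.span K (prods d) := by
  classical
  rw [c.as_sum]
  apply Submodule.sum_mem
  intro s hs
  have h1 : monomial s (coeff s c) = (coeff s c) • (monomial s (1 : K)) := by
    rw [smul_monomial]; simp
  rw [h1]
  apply Submodule.smul_mem
  apply Submodule.subset_span
  refine ⟨(Finsupp.toMultiset s).map (fun i => Pi.single i (1 : K)), ?_, ?_⟩
  · rw [Multiset.card_map, Finsupp.card_toMultiset]
    exact (le_totalDegree hs).trans hc
  · rw [Multiset.map_map]
    have : (lin ∘ fun i : Fin m => (Pi.single i (1 : K) : Fin m → K)) = X := by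
      funext i; simp [lin_single]
    rw [this, monomial_eq]
    simp only [C_1, one_mul]
    rw [Finsupp.prod, Finset.prod_multiset_map_count]
    rw [Finsupp.toFinset_toMultiset]
    refine Finset.prod_congr rfl fun i _ => ?_
    rw [Finsupp.count_toMultiset]

lemma gens_empty {ι : Type*} [DecidableEq ι] (a : ι → Fin m → K) (d : ℕ) :
    (gens (∅ : Finset ι) a 0 d : Set (MvPolynomial (Fin m) K)) = prods d := by
  ext g
  simp only [gens, prods, Set.mem_ofPred_eq, Finset.subset_empty]
  constructor
  · rintro ⟨S, rfl, _, M, hM, rfl⟩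
    exact ⟨M, by simpa using hM, by simp⟩
  · rintro ⟨M, hM, rfl⟩
    exact ⟨∅, rfl, by simp, M, by simpa using hM, by simp⟩

lemma coeff_span_prods (b w : Fin m → K) (d k : ℕ) (c : MvPolynomial (Fin m) K)
    (hc : c ∈ Submodule.span K (prods d)) (hk : (Phi b w c).coeff k ≠ 0) :
    k ≤ d ∧ (Phi b w c).coeff k ∈ Submodule.span K (prods (d - k)) := by
  have key : (Phi b w c).coeff k ∈ Submodule.span K {g : MvPolynomial (Fin m) K |
      ∃ M' : Multiset (Fin m → K), M'.card + k ≤ d ∧ g = (M'.map lin).prod} := by
    refine Submodule.span_induction (p := fun c _ => (Phi b w c).coeff k ∈ _) ?_ ?_ ?_ ?_ hc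
    · rintro g ⟨M, hM, rfl⟩
      refine Submodule.span_mono ?_ (coeff_prods b w M k)
      rintro g ⟨M', hM', rfl⟩
      exact ⟨M', by omega, rfl⟩
    · simp
    · intro p q _ _ hp hq
      rw [map_add, Polynomial.coeff_add]
      exact Submodule.add_mem _ hp hq
    · intro c p _ hp
      rw [map_smul, Polynomial.coeff_smul]
      exact Submodule.smul_mem _ _ hp
  have hkd : k ≤ d := by
    by_contra hcon
    apply hk
    have : {g : MvPolynomial (Fin m) K |
      ∃ M' : Multiset (Fin m → K), M'.card + k ≤ d ∧ g = (M'.map lin).prod} = ∅ := by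
      ext g
      simp only [Set.mem_ofPred_eq, Set.mem_empty_iff_false, iff_false, not_exists, not_and]
      intro M' hM'; omega
    rw [this, Submodule.span_empty, Submodule.mem_bot] at key
    exact key
  refine ⟨hkd, Submodule.span_mono ?_ key⟩
  rintro g ⟨M', hM', rfl⟩
  exact ⟨M', by omega, rfl⟩

end

end Pool.Agent.H562R2.Sdit
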