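import Mathlib
import Pool.Agent.H562R2.Sdit.Near

set_option autoImplicit false
set_option linter.unusedSectionVars false

/-!
# Nonvanishing on the span of few points of a moment-like family
-/

namespace Pool.Agent.H562R2.Sdit

open MvPolynomial Finset

noncomputable section

variable {K : Type*} [Field K] {m : ℕ} {Z : Type*} [Fintype Z] [DecidableEq Z]

lemma dot_smul (c : K) (a w : Fin m → K) : dot a (c • w) = c * dot a w := by
  simp only [dot, Pi.smul_apply, smul_eq_mul, Finset.mul_sum]
  refine Finset.sum_congr rfl fun i _ => by ring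

lemma dot_add (a x w : Fin m → K) : dot a (x + w) = dot a x + dot a w := by
  simp [dot, mul_add, Finset.sum_add_distrib]

lemma dot_pr (b w a x : Fin m → K) : dot (pr b w a) x = dot a x - dot a w * dot b x := by
  have : dot b x = ∑ i, b i * x i := rfl
  rw [this]
  simp only [dot, pr, sub_mul, Finset.sum_sub_distrib, Finset.mul_sum]
  congr 1
  refine Finset.sum_congr rfl fun i _ => by ring

lemma eval_congr_add (x w : Fin m → K) (t : K) (f : MvPolynomial (Fin m) K) :
    eval (fun i => x i + t * w i) f = eval (x + t • w) f := by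
  congr 1

/-- every nonzero functional is nonzero at some `v z` implies spanning -/
lemma span_top (v : Z → Fin m → K) (hv : ∀ c : Fin m → K, c ≠ 0 → ∃ z, dot c (v z) ≠ 0) :
    Submodule.span K (Set.range v) = ⊤ := by
  classical
  by_contra hne
  obtain ⟨φ, hφ, hle⟩ := Submodule.exists_le_ker_of_lt_top _ (lt_top_iff_ne_top.mpr hne)
  let c : Fin m → K := fun i => φ (Pi.single i 1)
  have hdot : ∀ x, dot c x = φ x := by
    intro x
    have hx : x = ∑ i, x i • (Pi.single i (1 : K) : Fin m → K) := by
      funext j
      simp [Finset.sum_apply, Pi.single_apply]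
    conv_rhs => rw [hx]
    rw [map_sum]
    unfold dot
    refine Finset.sum_congr rfl fun i _ => ?_
    simp only [map_smul, smul_eq_mul, c]
    ring
  have hc : c ≠ 0 := by
    intro h0
    apply hφ
    refine LinearMap.ext fun x => ?_
    rw [← hdot, h0]
    simp [dot]
  obtain ⟨z, hz⟩ := hv c hc
  apply hz
  rw [hdot]
  exact hle (Submodule.subset_span ⟨z, rfl⟩)

/-- the base case -/
lemma base [Infinite K] (v : Z → Fin m → K)
    (hv : ∀ c : Fin m → K, c ≠ 0 → ∃ z, dot c (v z) ≠ 0) :
    ∀ (d : ℕ) (c : MvPolynomial (Fin m) K), c ∈ Submodule.span K (prods d) → c ≠ 0 →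
      ∃ s : Finset Z, s.card ≤ d ∧ ∃ x ∈ Submodule.span K (v '' (s : Set Z)), eval x c ≠ 0 := by
  classical
  intro d
  induction d using Nat.strong_induction_on with
  | _ d ih =>
  intro c hc hc0
  by_cases h : ∃ z : Z, ∃ b : Fin m → K, dot b (v z) = 1 ∧ ∃ k, 1 ≤ k ∧ (Phi b (v z) c).coeff k ≠ 0
  · obtain ⟨z, b, hb, k, hk, hne⟩ := h
    obtain ⟨hkd, hmem⟩ := coeff_span_prods b (v z) d k c hc hne
    obtain ⟨s, hs, x, hx, hxe⟩ := ih (d - k) (by omega) _ hmem hne
    obtain ⟨t, ht⟩ := extend b (v z) x c k hxe
    refine ⟨insert z s, ?_, x + t • v z, ?_, ?_⟩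
    · exact (Finset.card_insert_le _ _).trans (by omega)
    · apply Submodule.add_mem
      · refine Submodule.span_mono ?_ hx
        apply Set.image_mono
        intro y hy; simp at hy ⊢; exact Or.inr hy
      · apply Submodule.smul_mem
        apply Submodule.subset_span
        exact ⟨z, by simp, rfl⟩
    · rwa [← eval_congr_add]
  · push Not at h
    -- c is translation invariant
    have hinv : ∀ z : Z, ∀ x : Fin m → K, ∀ t : K, eval (x + t • v z) c = eval x c := by
      intro z x t
      by_cases hz : v z = 0
      · simp [hz]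
      · obtain ⟨i, hi⟩ : ∃ i, v z i ≠ 0 := by
          by_contra hcon
          push Not at hcon
          exact hz (funext hcon)
        let b : Fin m → K := Pi.single i (v z i)⁻¹
        have hb : dot b (v z) = 1 := by
          unfold dot
          rw [Finset.sum_eq_single i]
          · simp [b, hi]
          · intro j _ hj; simp [b, Pi.single_eq_of_ne hj]
          · intro h; exact absurd (Finset.mem_univ i) h
        have hz' := h z b hb
        have hconst : Phi b (v z) c = Polynomial.C ((Phi b (v z) c).coeff 0) := by
          ext k : 1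
          rw [Polynomial.coeff_C]
          split_ifs with hk
          · rw [hk]
          · exact hz' k (Nat.one_le_iff_ne_zero.mpr hk)
        have e1 := Phi_point b (v z) x (dot b x + t) c
        have e2 := Phi_point b (v z) x (dot b x) c
        rw [hconst] at e1 e2
        simp only [Polynomial.map_C, Polynomial.eval_C] at e1 e2
        rw [e1] at e2
        rw [eval_congr_add, eval_congr_add] at e2
        simpa using e2
    have hinv2 : ∀ y : Fin m → K, ∀ x : Fin m → K, eval (x + y) c = eval x c := by
      intro y
      have hy : y ∈ Submodule.span K (Set.range v) := by rw [span_top v hv]; trivial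
      refine Submodule.span_induction (p := fun y _ => ∀ x : Fin m → K, eval (x + y) c = eval x c)
        ?_ ?_ ?_ ?_ hy
      · rintro _ ⟨z, rfl⟩ x
        have := hinv z x 1
        simpa using this
      · intro x; simp
      · intro y1 y2 _ _ h1 h2 x
        rw [← add_assoc, h2, h1]
      · intro r y' hy' h1 x
        -- need invariance under scaling: use span induction on scaled element
        have : ∀ r : K, ∀ x : Fin m → K, eval (x + r • y') c = eval x c := by
          refine Submodule.span_induction (p := fun y _ => ∀ r : K, ∀ x : Fin m → K,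
            eval (x + r • y) c = eval x c) ?_ ?_ ?_ ?_ hy'
          · rintro _ ⟨z, rfl⟩ r x
            exact hinv z x r
          · intro r x; simp
          · intro y1 y2 _ _ h1 h2 r x
            rw [smul_add, ← add_assoc, h2, h1]
          · intro a y1 _ h1 r x
            rw [smul_smul]; exact h1 _ _
        exact this r x
    refine ⟨∅, by simp, 0, Submodule.zero_mem _, ?_⟩
    intro h0
    apply hc0
    apply MvPolynomial.funext
    intro x
    have := hinv2 x 0
    rw [zero_add] at this
    rw [this, h0, map_zero]

lemma gens_totalDegree {ι : Type*} [DecidableEq ι] (J : Finset ι) (a : ι → Fin m → K) (R d : ℕ)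
    (f : MvPolynomial (Fin m) K) (hf : f ∈ Submodule.span K (gens J a R d)) :
    f.totalDegree ≤ d + J.card := by
  refine Submodule.span_induction (p := fun f _ => f.totalDegree ≤ d + J.card) ?_ ?_ ?_ ?_ hf
  · rintro g ⟨S, hSJ, hSR, M, hM, rfl⟩
    refine (totalDegree_mul _ _).trans ?_
    have h1 : ((M.map lin).prod : MvPolynomial (Fin m) K).totalDegree ≤ M.card := by
      refine (totalDegree_multiset_prod _).trans ?_
      rw [Multiset.map_map]
      refine (Multiset.sum_le_card_nsmul _ 1 ?_).trans ?_
      · intro x hx
        rw [Multiset.mem_map] at hx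
        obtain ⟨a, _, rfl⟩ := hx
        exact totalDegree_lin_le a
      · simp
    have h2 : (∏ j ∈ J \ S, lin (a j)).totalDegree ≤ (J \ S).card := by
      refine (totalDegree_finsetProd _ _).trans ?_
      refine (Finset.sum_le_card_nsmul _ _ 1 fun j _ => totalDegree_lin_le _).trans ?_
      simp
    have h3 := Finset.card_sdiff_add_card_eq_card hSJ
    omega
  · simp
  · intro p q _ _ hp hq
    exact (totalDegree_add _ _).trans (max_le hp hq)
  · intro c p _ hp
    exact (totalDegree_smul_le _ _).trans hp

/-- vanishing of low coefficients -/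
lemma coeff_zero_of_lt {ι : Type*} [DecidableEq ι] (b w : Fin m → K) (J : Finset ι)
    (a : ι → Fin m → K) (R d k : ℕ) (J1 : Finset ι)
    (hJ1 : ∀ x, x ∈ J1 ↔ x ∈ J ∧ pr b w (a x) = 0) (hR : R + k < J1.card)
    (f : MvPolynomial (Fin m) K) (hf : f ∈ Submodule.span K (gens J a R d)) :
    (Phi b w f).coeff k = 0 := by
  refine Submodule.span_induction (p := fun f _ => (Phi b w f).coeff k = 0) ?_ ?_ ?_ ?_ hf
  · rintro g ⟨S, hSJ, hSR, M, hM, rfl⟩
    rw [map_mul, Polynomial.coeff_mul]
    apply Finset.sum_eq_zero
    rintro ⟨k1, k2⟩ hk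
    have hk' : k1 + k2 = k := by simpa using hk
    have h2 := coeff_forms b w a (J \ S) k2
    have h3 : (Phi b w (∏ j ∈ J \ S, lin (a j))).coeff k2 = 0 := by
      have hz : {g : MvPolynomial (Fin m) K | ∃ T ⊆ J \ S, T.card = k2 ∧
        g = ∏ j ∈ (J \ S) \ T, lin (pr b w (a j))} ⊆ {0} := by
        rintro g ⟨T, hT, hTk, rfl⟩
        have hnsub : ¬ J1 ⊆ S ∪ T := by
          intro hsub
          have := Finset.card_le_card hsub
          have := Finset.card_union_le S T
          omega
        obtain ⟨x, hx, hx'⟩ := Finset.not_subset.mp hnsub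
        have hx0 : pr b w (a x) = 0 := ((hJ1 x).mp hx).2
        have hxJ : x ∈ J := ((hJ1 x).mp hx).1
        rw [Set.mem_singleton_iff]
        apply Finset.prod_eq_zero (i := x)
        · rw [Finset.mem_union, not_or] at hx'
          simp [hxJ, hx'.1, hx'.2]
        · rw [hx0, lin_zero]
      have := Submodule.span_mono (R := K) hz h2
      simpa using this
    simp only
    rw [h3, mul_zero]
  · simp
  · intro p q _ _ hp hq
    rw [map_add, Polynomial.coeff_add, hp, hq, add_zero]
  · intro c p _ hp
    rw [map_smul, Polynomial.coeff_smul, hp, smul_zero]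

/-- **Main induction.** -/
theorem main [Infinite K] (v : Z → Fin m → K) (B : ℕ)
    (hv : ∀ c : Fin m → K, c ≠ 0 → ∃ s : Finset Z, s.card ≤ B ∧ ∀ z, z ∉ s → dot c (v z) ≠ 0)
    (hB : B < Fintype.card Z) {ι : Type*} [DecidableEq ι] :
    ∀ (R d : ℕ) (J : Finset ι) (a : ι → Fin m → K), (∀ j ∈ J, a j ≠ 0) →
      B * J.card < Fintype.card Z → ∀ f : MvPolynomial (Fin m) K,
      f ∈ Submodule.span K (gens J a R d) → f ≠ 0 →
      ∃ s : Finset Z, s.card ≤ d + 2 * R + 1 ∧
        ∃ x ∈ Submodule.span K (v '' (s : Set Z)), eval x f ≠ 0 := by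
  classical
  have hv' : ∀ c : Fin m → K, c ≠ 0 → ∃ z, dot c (v z) ≠ 0 := by
    intro c hc
    obtain ⟨s, hs, hsz⟩ := hv c hc
    obtain ⟨z, hz⟩ : ∃ z, z ∉ s := by
      by_contra hcon
      push Not at hcon
      have h2 : s = univ := Finset.eq_univ_iff_forall.mpr hcon
      rw [h2, Finset.card_univ] at hs
      omega
    exact ⟨z, hsz z hz⟩
  choose! zs hzs1 hzs2 using hv
  intro R
  induction R using Nat.strong_induction_on with
  | _ R ih =>
  intro d J a ha hJ f hf hf0
  set P : MvPolynomial (Fin m) K := ∏ j ∈ J, lin (a j) with hP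
  have hP0 : P ≠ 0 := Finset.prod_ne_zero_iff.mpr fun j hj => lin_ne_zero (ha j hj)
  by_cases hdvd : P ∣ f
  · -- Case A
    obtain ⟨c, hc⟩ := hdvd
    have hc0 : c ≠ 0 := by rintro rfl; exact hf0 (by rw [hc, mul_zero])
    have hdegP : P.totalDegree = J.card := by
      have : P.IsHomogeneous J.card := by
        have := MvPolynomial.IsHomogeneous.prod J (fun j => lin (a j)) (fun _ => 1)
          (fun j _ => lin_isHomogeneous (a j))
        simpa using this
      exact this.totalDegree hP0
    have hdeg : c.totalDegree ≤ d := by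
      have h1 := gens_totalDegree J a R d f hf
      rw [hc, totalDegree_mul_of_isDomain hP0 hc0, hdegP] at h1
      omega
    obtain ⟨s, hs, x, hx, hxe⟩ := base v hv' d c (mem_span_prods d c hdeg) hc0
    -- a point outside all the zero sets
    obtain ⟨z0, hz0⟩ : ∃ z0 : Z, ∀ j ∈ J, dot (a j) (v z0) ≠ 0 := by
      by_contra hcon
      push Not at hcon
      have h1 : (univ : Finset Z) ⊆ J.biUnion fun j => zs (a j) := by
        intro z _
        obtain ⟨j, hj, hz⟩ := hcon z
        rw [Finset.mem_biUnion]
        refine ⟨j, hj, ?_⟩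
        by_contra hzn
        exact hzs2 (a j) (ha j hj) z hzn hz
      have h2 := Finset.card_le_card h1
      rw [Finset.card_univ] at h2
      have h3 : (J.biUnion fun j => zs (a j)).card ≤ J.card * B :=
        Finset.card_biUnion_le_card_mul _ _ _ fun j hj => hzs1 (a j) (ha j hj)
      rw [mul_comm] at h3
      omega
    let ψ : MvPolynomial (Fin m) K →ₐ[K] Polynomial K :=
      aeval fun i => Polynomial.C (x i) + Polynomial.C (v z0 i) * Polynomial.X
    have hψ : ∀ (g : MvPolynomial (Fin m) K) (t : K),
        (ψ g).eval t = eval (x + t • v z0) g := by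
      intro g t
      have : ((Polynomial.evalRingHom t).comp (ψ : MvPolynomial (Fin m) K →+* _)) =
          eval (x + t • v z0) := by
        apply MvPolynomial.ringHom_ext
        · intro r
          simp only [RingHom.comp_apply, RingHom.coe_coe, algHom_C]
          simp
        · intro i
          simp [ψ]
          ring
      have := congrArg (fun φ => φ g) this
      simpa using this
    have hψf : ψ f ≠ 0 := by
      rw [hc, map_mul, hP, map_prod]
      apply mul_ne_zero
      · rw [Finset.prod_ne_zero_iff]
        intro j hj h0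
        apply hz0 j hj
        have e1 := hψ (lin (a j)) 1
        have e0 := hψ (lin (a j)) 0
        rw [h0] at e1 e0
        simp only [Polynomial.eval_zero, eval_lin, zero_smul, add_zero, one_smul] at e1 e0
        have : dot (a j) (x + v z0) = dot (a j) x + dot (a j) (v z0) := by
          simp [dot, mul_add, Finset.sum_add_distrib]
        rw [this, ← e0] at e1
        simpa using e1.symm
      · intro h0
        apply hxe
        have e0 := hψ c 0
        rw [h0] at e0
        simpa using e0.symm
    obtain ⟨t, ht⟩ : ∃ t : K, (ψ f).eval t ≠ 0 := by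
      by_contra hcon
      push Not at hcon
      exact hψf (Polynomial.funext (by simpa using hcon))
    refine ⟨insert z0 s, (Finset.card_insert_le _ _).trans (by omega), x + t • v z0, ?_, ?_⟩
    · apply Submodule.add_mem
      · refine Submodule.span_mono ?_ hx
        apply Set.image_mono
        intro y hy; simp at hy ⊢; exact Or.inr hy
      · apply Submodule.smul_mem
        apply Submodule.subset_span
        exact ⟨z0, by simp, rfl⟩
    · rwa [← hψ]
  · -- Case B
    rw [UniqueFactorizationMonoid.dvd_iff_emultiplicity_le hP0] at hdvd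
    push Not at hdvd
    obtain ⟨p, hp, hlt⟩ := hdvd
    have hsum : emultiplicity p P = ∑ j ∈ J, emultiplicity p (lin (a j)) :=
      Finset.emultiplicity_prod hp J _
    let Jp : Finset ι := J.filter fun j => p ∣ lin (a j)
    have hassoc : ∀ j ∈ Jp, Associated p (lin (a j)) := by
      intro j hj
      rw [Finset.mem_filter] at hj
      exact (hp.irreducible.dvd_irreducible_iff_associated (lin_irreducible (ha j hj.1))).mp hj.2
    have hcardp : emultiplicity p P ≤ (Jp.card : ℕ∞) := by
      rw [hsum]
      have h1 : ∀ j ∈ J, emultiplicity p (lin (a j)) ≤ if p ∣ lin (a j) then (1 : ℕ∞) else 0 := by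
        intro j hj
        split_ifs with h
        · have h2 := hassoc j (Finset.mem_filter.mpr ⟨hj, h⟩)
          rw [← emultiplicity_eq_of_associated_left h2]
          have hirr := lin_irreducible (ha j hj)
          have : emultiplicity (lin (a j)) (lin (a j)) = 1 := by
            have hfin : FiniteMultiplicity (lin (a j)) (lin (a j)) :=
              FiniteMultiplicity.of_not_isUnit hirr.not_isUnit hirr.ne_zero
            exact hfin.emultiplicity_self
          rw [this]
        · rw [emultiplicity_eq_zero.mpr h]
      refine (Finset.sum_le_sum h1).trans ?_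
      rw [← Finset.sum_filter]
      simp [Jp]
    have hltp : emultiplicity p f < (Jp.card : ℕ∞) := lt_of_lt_of_le hlt hcardp
    obtain ⟨j1, hj1⟩ : Jp.Nonempty := by
      rw [← Finset.card_pos]
      by_contra hcon
      have : Jp.card = 0 := by omega
      rw [this] at hltp
      simp at hltp
    have hj1J : j1 ∈ J := (Finset.mem_filter.mp hj1).1
    have hb0 : a j1 ≠ 0 := ha j1 hj1J
    have hassoc1 := hassoc j1 hj1
    have hirr1 := lin_irreducible hb0
    have hfin : FiniteMultiplicity (lin (a j1)) f :=
      FiniteMultiplicity.of_not_isUnit hirr1.not_isUnit hf0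
    obtain ⟨h, hh, hnd⟩ := hfin.exists_eq_pow_mul_and_not_dvd
    set e := multiplicity (lin (a j1)) f with he
    have hlte : e < Jp.card := by
      have h1 : emultiplicity p f = (e : ℕ∞) := by
        rw [← emultiplicity_eq_of_associated_left hassoc1, hfin.emultiplicity_eq_multiplicity]
      rw [h1] at hltp
      exact_mod_cast hltp
    -- direction
    obtain ⟨z1, hz1⟩ := hv' (a j1) hb0
    set w : Fin m → K := (dot (a j1) (v z1))⁻¹ • v z1 with hw
    have hbw : dot (a j1) w = 1 := by rw [hw, dot_smul, inv_mul_cancel₀ hz1]
    let J1 : Finset ι := J.filter fun j => pr (a j1) w (a j) = 0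
    have hJ1 : ∀ x, x ∈ J1 ↔ x ∈ J ∧ pr (a j1) w (a x) = 0 := fun x => Finset.mem_filter
    have hJpJ1 : Jp ⊆ J1 := by
      intro j hj
      rw [hJ1]
      refine ⟨(Finset.mem_filter.mp hj).1, ?_⟩
      have hd : lin (a j1) ∣ lin (a j) := (hassoc1.symm.trans (hassoc j hj)).dvd
      obtain ⟨q, hq⟩ := hd
      apply lin_inj
      intro x
      -- evaluate at the projected point
      have e1 : dot (pr (a j1) w (a j)) x = dot (a j) (x + (- dot (a j1) x) • w) := by
        rw [dot_pr, dot_add, dot_smul (- dot (a j1) x) (a j) w]; ring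
      have e2 : dot (a j1) (x + (- dot (a j1) x) • w) = 0 := by
        rw [dot_add, dot_smul (- dot (a j1) x) (a j1) w, hbw]; ring
      rw [e1, ← eval_lin, hq, map_mul, eval_lin, e2, zero_mul]
    have hcardJ : Jp.card ≤ J1.card := Finset.card_le_card hJpJ1
    -- the coefficient of order e is nonzero
    have hcoef : (Phi (a j1) w f).coeff e ≠ 0 := by
      rw [hh, map_mul, map_pow, Phi_self hbw, Polynomial.coeff_X_pow_mul']
      simp only [le_refl, if_true, Nat.sub_self]
      intro h0
      apply hnd
      obtain ⟨g, hg⟩ := Polynomial.X_dvd_iff.mpr h0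
      refine ⟨g.eval (lin (a j1)), ?_⟩
      have := Phi_eval (a j1) w h
      rw [hg] at this
      rw [← this]
      simp
    have hle : J1.card ≤ R + e := by
      by_contra hcon
      push Not at hcon
      exact hcoef (coeff_zero_of_lt (a j1) w J a R d e J1 hJ1 hcon f hf)
    have hmem := coeff_gens (a j1) w J a R d e (R + e - J1.card) (d + J1.card - e) J1 hJ1
      (by omega) (by omega) f hf
    obtain ⟨s, hs, x, hx, hxe⟩ := ih (R + e - J1.card) (by omega) (d + J1.card - e) (J \ J1)
      (fun j => pr (a j1) w (a j)) (by
        intro j hj h0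
        rw [Finset.mem_sdiff] at hj
        exact hj.2 ((hJ1 j).mpr ⟨hj.1, h0⟩))
      (lt_of_le_of_lt (Nat.mul_le_mul_left _ (Finset.card_le_card Finset.sdiff_subset)) hJ)
      _ hmem hcoef
    obtain ⟨t, ht⟩ := extend (a j1) w x f e hxe
    refine ⟨insert z1 s, (Finset.card_insert_le _ _).trans (by omega), x + t • w, ?_, ?_⟩
    · apply Submodule.add_mem
      · refine Submodule.span_mono ?_ hx
        apply Set.image_mono
        intro y hy; simp at hy ⊢; exact Or.inr hy
      · rw [hw]
        apply Submodule.smul_mem
        apply Submodule.smul_mem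
        apply Submodule.subset_span
        exact ⟨z1, by simp, rfl⟩
    · rwa [← eval_congr_add]

end

end Pool.Agent.H562R2.Sdit
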