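import Mathlib
import Pool.Agent.H562R2.Sdit.Main

set_option autoImplicit false
set_option linter.unusedSectionVars false

/-!
# Determinants with a large triangular corner of small depth
-/

namespace Pool.Agent.H562R2.Sdit

open MvPolynomial Finset

noncomputable section

/-- the number of nonfixed points of a permutation inside `J`, when levels strictly decrease -/
lemma perm_count {α : Type*} [Fintype α] [DecidableEq α] (σ : Equiv.Perm α) (J : Finset α)
    (lev : α → ℕ) (p : ℕ) (hp : ∀ i ∈ J, lev i < p)
    (h : ∀ i ∈ J, σ i ∈ J → σ i ≠ i → lev (σ i) < lev i) :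
    (J.filter fun i => σ i ≠ i).card ≤ p * (univ \ J).card := by
  classical
  set S := J.filter fun i => σ i ≠ i with hS
  -- every point of S leaves J
  have hex : ∀ n : ℕ, ∀ i ∈ S, lev i = n → ∃ t : ℕ, 1 ≤ t ∧ (σ ^ t) i ∉ J ∧
      (∀ s < t, (σ ^ s) i ∈ J) ∧ (∀ s, 1 ≤ s → s < t → lev ((σ ^ s) i) < lev i) := by
    intro n
    induction n using Nat.strong_induction_on with
    | _ n ih =>
    intro i hi hn
    rw [hS, Finset.mem_filter] at hi
    by_cases hJ : σ i ∈ J
    · have hlt := h i hi.1 hJ hi.2
      have hne : σ (σ i) ≠ σ i := fun hc => hi.2 (σ.injective hc)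
      obtain ⟨t, ht1, ht2, ht3, ht4⟩ := ih (lev (σ i)) (by omega) (σ i)
        (Finset.mem_filter.mpr ⟨hJ, hne⟩) rfl
      refine ⟨t + 1, by omega, ?_, ?_, ?_⟩
      · rw [pow_succ]; exact ht2
      · intro s hs
        cases s with
        | zero => simpa using hi.1
        | succ s => rw [pow_succ]; exact ht3 s (by omega)
      · intro s hs1 hs2
        obtain ⟨s, rfl⟩ : ∃ s', s = s' + 1 := ⟨s - 1, by omega⟩
        rw [pow_succ]
        show lev ((σ ^ s) (σ i)) < lev i
        by_cases hs0 : s = 0
        · subst hs0; simpa using hlt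
        · exact lt_trans (ht4 s (by omega) (by omega)) hlt
    · exact ⟨1, le_refl _, by simpa using hJ, by
        intro s hs
        have : s = 0 := by omega
        subst this; simpa using hi.1, by intro s hs1 hs2; omega⟩
  choose! T hT1 hT2 hT3 hT4 using fun i (hi : i ∈ S) => hex (lev i) i hi rfl
  have hcard : S.card ≤ ((univ \ J) ×ˢ (range p)).card := by
    apply Finset.card_le_card_of_injOn (fun i => ((σ ^ (T i)) i, lev i))
    · intro i hi
      have hiJ : i ∈ J := (Finset.mem_filter.mp hi).1
      simp only [Finset.coe_product, Set.mem_prod, Finset.mem_coe, Finset.mem_sdiff,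
        Finset.mem_univ, true_and, Finset.mem_range]
      exact ⟨hT2 i hi, hp i hiJ⟩
    · intro i hi i' hi' heq
      simp only [Prod.mk.injEq] at heq
      obtain ⟨h1, h2⟩ := heq
      -- wlog T i ≤ T i'
      have key : ∀ i i' : α, i ∈ S → i' ∈ S → (σ ^ (T i)) i = (σ ^ (T i')) i' → lev i = lev i' →
          T i ≤ T i' → i = i' := by
        intro i i' hi hi' h1 h2 hle
        obtain ⟨d, hd⟩ := Nat.exists_eq_add_of_le hle
        rw [hd, pow_add] at h1
        have h3 : i = (σ ^ d) i' := by
          apply (σ ^ (T i)).injective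
          rw [h1]; rfl
        by_cases hd0 : d = 0
        · rw [h3, hd0]; simp
        · exfalso
          have hTi := hT1 i hi
          have := hT4 i' hi' d (by omega) (by omega)
          rw [← h3] at this
          omega
      rcases le_total (T i) (T i') with hle | hle
      · exact key i i' hi hi' h1 h2 hle
      · exact (key i' i hi' hi h1.symm h2.symm hle).symm
  rw [Finset.card_product, Finset.card_range] at hcard
  rw [mul_comm]; exact hcard

variable {K : Type*} [Field K] {m : ℕ}

/-- the determinant lies in the class of near-products -/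
lemma det_mem {n : ℕ} (α : Fin n → Fin n → Fin m → K) (J : Finset (Fin n)) (r p : ℕ)
    (hJ : (univ \ J).card ≤ r) (lev : Fin n → ℕ) (hp : ∀ i ∈ J, lev i < p)
    (h : ∀ i ∈ J, ∀ j ∈ J, i ≠ j → α i j ≠ 0 → lev i < lev j) :
    (Matrix.of fun i j => lin (α i j)).det ∈
      Submodule.span K (gens J (fun j => α j j) (p * r) r) := by
  classical
  rw [Matrix.det_apply]
  apply Submodule.sum_mem
  intro σ _
  rw [Units.smul_def, zsmul_eq_mul]
  have hsign : ((Equiv.Perm.sign σ : ℤ) : MvPolynomial (Fin m) K) * ∏ i, Matrix.of (fun i j => lin (α i j)) (σ i) i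
      = ((Equiv.Perm.sign σ : ℤ) : K) • ∏ i, lin (α (σ i) i) := by
    rw [smul_eq_C_mul]
    simp
  rw [hsign]
  apply Submodule.smul_mem
  by_cases hz : ∃ i, α (σ i) i = 0
  · obtain ⟨i, hi⟩ := hz
    rw [Finset.prod_eq_zero (Finset.mem_univ i) (by rw [hi, lin_zero])]
    exact Submodule.zero_mem _
  · push Not at hz
    apply Submodule.subset_span
    set S := J.filter fun i => σ i ≠ i with hS
    have hcount : S.card ≤ p * (univ \ J).card := by
      apply perm_count σ J lev p hp
      intro i hi hσi hne
      exact h (σ i) hσi i hi hne (hz i)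
    refine ⟨S, Finset.filter_subset _ _, hcount.trans (Nat.mul_le_mul_left _ hJ),
      ((univ \ (J \ S)).val.map fun i => α (σ i) i), ?_, ?_⟩
    · rw [Multiset.card_map]
      show (univ \ (J \ S)).card ≤ r + S.card
      have : univ \ (J \ S) ⊆ (univ \ J) ∪ S := by
        intro x hx
        simp only [Finset.mem_sdiff, Finset.mem_univ, true_and, Finset.mem_union, not_and,
          not_not] at hx ⊢
        by_cases hxJ : x ∈ J
        · exact Or.inr (hx hxJ)
        · exact Or.inl hxJ
      exact (Finset.card_le_card this).trans ((Finset.card_union_le _ _).trans (by omega))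
    · rw [Multiset.map_map]
      have h1 : (Multiset.map (lin ∘ fun i => α (σ i) i) (univ \ (J \ S)).val).prod
          = ∏ i ∈ univ \ (J \ S), lin (α (σ i) i) := rfl
      rw [h1]
      have h2 : ∏ j ∈ J \ S, lin (α j j) = ∏ j ∈ J \ S, lin (α (σ j) j) := by
        refine Finset.prod_congr rfl fun j hj => ?_
        rw [Finset.mem_sdiff] at hj
        have : σ j = j := by
          by_contra hne
          exact hj.2 (Finset.mem_filter.mpr ⟨hj.1, hne⟩)
        rw [this]
      rw [h2, Finset.prod_sdiff (Finset.subset_univ _)]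

/-- zero diagonal forms can be discarded -/
lemma discard {ι : Type*} [DecidableEq ι] (J : Finset ι) (a : ι → Fin m → K) (R d : ℕ)
    (f : MvPolynomial (Fin m) K) (hf : f ∈ Submodule.span K (gens J a R d)) (hf0 : f ≠ 0) :
    ∃ J' ⊆ J, ∃ R' d' : ℕ, d' + 2 * R' ≤ d + 2 * R ∧ (∀ j ∈ J', a j ≠ 0) ∧
      f ∈ Submodule.span K (gens J' a R' d') := by
  classical
  set Z := J.filter fun j => a j = 0 with hZ
  -- generators that survive contain Z
  have hgen : ∀ g ∈ gens J a R d, g ≠ 0 → Z.card ≤ R ∧ g ∈ gens (J \ Z) a (R - Z.card) (d + Z.card) := by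
    rintro g ⟨S, hSJ, hSR, M, hM, rfl⟩ hne
    have hsub : Z ⊆ S := by
      intro x hx
      by_contra hxS
      apply hne
      rw [hZ, Finset.mem_filter] at hx
      rw [Finset.prod_eq_zero (i := x) (Finset.mem_sdiff.mpr ⟨hx.1, hxS⟩) (by rw [hx.2, lin_zero]),
        mul_zero]
    have hc : (S \ Z).card + Z.card = S.card := Finset.card_sdiff_add_card_eq_card hsub
    refine ⟨(Finset.card_le_card hsub).trans hSR, S \ Z, ?_, by omega, M, by omega, ?_⟩
    · exact Finset.sdiff_subset_sdiff hSJ (le_refl _)
    · congr 1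
      apply Finset.prod_congr _ (fun _ _ => rfl)
      ext x
      simp only [Finset.mem_sdiff]
      constructor
      · rintro ⟨h1, h2⟩
        exact ⟨⟨h1, fun h => h2 (hsub h)⟩, fun h => h2 h.1⟩
      · rintro ⟨⟨h1, h2⟩, h3⟩
        exact ⟨h1, fun h => h3 ⟨h, h2⟩⟩
  have hZR : Z.card ≤ R := by
    by_contra hcon
    apply hf0
    refine Submodule.span_induction (p := fun f _ => f = 0) ?_ rfl ?_ ?_ hf
    · intro g hg
      by_contra hg0
      exact hcon (hgen g hg hg0).1
    · intro p q _ _ hp hq; rw [hp, hq, add_zero]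
    · intro c p _ hp; rw [hp, smul_zero]
  refine ⟨J \ Z, Finset.sdiff_subset, R - Z.card, d + Z.card, by omega, ?_, ?_⟩
  · intro j hj h0
    rw [Finset.mem_sdiff] at hj
    exact hj.2 (Finset.mem_filter.mpr ⟨hj.1, h0⟩)
  · refine Submodule.span_induction (p := fun f _ => f ∈ _) ?_ (Submodule.zero_mem _) ?_ ?_ hf
    · intro g hg
      by_cases hg0 : g = 0
      · rw [hg0]; exact Submodule.zero_mem _
      · exact Submodule.subset_span (hgen g hg hg0).2
    · intro p q _ _ hp hq; exact Submodule.add_mem _ hp hq
    · intro c p _ hp; exact Submodule.smul_mem _ _ hp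

/-- the moment family -/
lemma moment [CharZero K] (N : ℕ) (c : Fin m → K) (hc : c ≠ 0) :
    ∃ s : Finset (Fin N), s.card ≤ m ∧
      ∀ z, z ∉ s → dot c (fun i : Fin m => (((z : ℕ) : K)) ^ (i : ℕ)) ≠ 0 := by
  classical
  let P : Polynomial K := ∑ i : Fin m, Polynomial.C (c i) * Polynomial.X ^ (i : ℕ)
  have hP0 : P ≠ 0 := by
    intro h0
    apply hc
    funext i
    have := congrArg (fun q => Polynomial.coeff q (i : ℕ)) h0
    simp only [P, Polynomial.finsetSum_coeff, Polynomial.coeff_C_mul, Polynomial.coeff_X_pow,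
      Polynomial.coeff_zero] at this
    rw [Finset.sum_eq_single i] at this
    · simpa using this
    · intro j _ hj
      rw [if_neg (fun h => hj (Fin.ext h.symm)), mul_zero]
    · intro h; exact absurd (Finset.mem_univ i) h
  have hdeg : P.natDegree ≤ m := by
    apply Polynomial.natDegree_sum_le_of_forall_le
    intro i _
    refine (Polynomial.natDegree_C_mul_X_pow_le _ _).trans (by omega)
  have heval : ∀ z : Fin N, P.eval ((z : ℕ) : K) = dot c (fun i : Fin m => (((z : ℕ) : K)) ^ (i : ℕ)) := by
    intro z
    simp [P, Polynomial.eval_finsetSum, dot]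
  refine ⟨univ.filter fun z => P.eval ((z : ℕ) : K) = 0, ?_, ?_⟩
  · have h1 : (univ.filter fun z : Fin N => P.eval ((z : ℕ) : K) = 0).card ≤ P.roots.toFinset.card := by
      apply Finset.card_le_card_of_injOn (fun z : Fin N => ((z : ℕ) : K))
      · intro z hz
        simp only [Finset.coe_filter, Finset.mem_univ, true_and, Set.mem_ofPred_eq] at hz
        simp only [Finset.mem_coe, Multiset.mem_toFinset]
        exact (Polynomial.mem_roots hP0).mpr hz
      · intro z _ z' _ h
        have : ((z : ℕ) : K) = ((z' : ℕ) : K) := h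
        exact Fin.ext (Nat.cast_injective this)
    exact h1.trans ((Multiset.toFinset_card_le _).trans ((Polynomial.card_roots' P).trans hdeg))
  · intro z hz
    rw [← heval]
    simpa using hz

lemma totalDegree_aeval_le {τ : Type*} (g : Fin m → MvPolynomial τ K)
    (hg : ∀ i, (g i).totalDegree ≤ 1) (f : MvPolynomial (Fin m) K) :
    (aeval g f).totalDegree ≤ f.totalDegree := by
  classical
  conv_lhs => rw [f.as_sum]
  rw [map_sum]
  refine (totalDegree_finsetSum _ _).trans ?_
  apply Finset.sup_le
  intro s hs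
  rw [aeval_monomial]
  refine (totalDegree_mul _ _).trans ?_
  have h1 : (algebraMap K (MvPolynomial τ K) (coeff s f)).totalDegree = 0 := by
    rw [algebraMap_eq]; exact totalDegree_C _
  rw [h1, zero_add]
  refine le_trans ?_ (le_totalDegree hs)
  rw [Finsupp.prod]
  refine (totalDegree_finsetProd _ _).trans ?_
  rw [Finsupp.sum]
  apply Finset.sum_le_sum
  intro i _
  refine (totalDegree_pow _ _).trans ?_
  calc s i * (g i).totalDegree ≤ s i * 1 := Nat.mul_le_mul_left _ (hg i)
    _ = s i := mul_one _

/-- from a nonzero value on the span of few family members to a grid point -/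
lemma grid [CharZero K] {Z : Type*} [DecidableEq Z] (v : Z → Fin m → K) (f : MvPolynomial (Fin m) K)
    (D : ℕ) (hD : f.totalDegree ≤ D) (s : Finset Z) (x : Fin m → K)
    (hx : x ∈ Submodule.span K (v '' (s : Set Z))) (hxe : eval x f ≠ 0) :
    ∃ y : Z → ℕ, (∀ z, y z ≤ D) ∧ eval (∑ z ∈ s, ((y z : ℕ) : K) • v z) f ≠ 0 := by
  classical
  obtain ⟨c, hc⟩ : ∃ c : Z → K, ∑ z ∈ s, c z • v z = x := by
    rw [Submodule.mem_span_image_finset_iff_exists_fun] at hx
    obtain ⟨c, hc⟩ := hx
    refine ⟨fun z => if h : z ∈ s then c ⟨z, h⟩ else 0, ?_⟩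
    rw [← hc, ← Finset.sum_coe_sort]
    refine Finset.sum_congr rfl fun z _ => ?_
    simp
  let g : Fin m → MvPolynomial s K := fun i => ∑ z : s, C (v z i) * X z
  have hg : ∀ i, (g i).totalDegree ≤ 1 := by
    intro i
    refine (totalDegree_finsetSum _ _).trans ?_
    apply Finset.sup_le
    intro z _
    refine (totalDegree_mul _ _).trans ?_
    rw [totalDegree_C, zero_add]
    exact (totalDegree_X z).le
  let G : MvPolynomial s K := aeval g f
  have heval : ∀ y : Z → K, eval (fun z : s => y z) G = eval (∑ z ∈ s, y z • v z) f := by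
    intro y
    have : ((eval (fun z : s => y z)).comp (aeval g : MvPolynomial (Fin m) K →ₐ[K] _).toRingHom)
        = eval (∑ z ∈ s, y z • v z) := by
      apply MvPolynomial.ringHom_ext
      · intro r; simp [algebraMap_eq]
      · intro i
        simp only [AlgHom.toRingHom_eq_coe, RingHom.comp_apply, RingHom.coe_coe, aeval_X, g,
          map_sum, map_mul, eval_C, eval_X, Finset.sum_apply, Pi.smul_apply, smul_eq_mul]
        rw [Finset.sum_coe_sort s (fun z => v z i * y z)]
        refine Finset.sum_congr rfl fun z _ => mul_comm _ _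
    exact RingHom.congr_fun this f
  have hG0 : G ≠ 0 := by
    intro h0
    apply hxe
    have := heval c
    rw [h0, map_zero, hc] at this
    exact this.symm
  by_contra hcon
  push Not at hcon
  apply hG0
  apply eq_zero_of_eval_zero_at_prod_finset G (fun _ => (range (D + 1)).image fun k : ℕ => (k : K))
  · intro z
    rw [Finset.card_image_of_injective _ Nat.cast_injective, Finset.card_range]
    have h1 := degreeOf_le_totalDegree G z
    have h2 := totalDegree_aeval_le g hg f
    have h3 : G.totalDegree ≤ D := h2.trans hD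
    omega
  · intro y hy
    have hy' : ∀ z : s, ∃ k : ℕ, k ≤ D ∧ (k : K) = y z := by
      intro z
      have := hy z
      rw [Finset.mem_image] at this
      obtain ⟨k, hk, hke⟩ := this
      exact ⟨k, by simpa [Nat.lt_succ_iff] using hk, hke⟩
    choose k hk hke using hy'
    let yy : Z → ℕ := fun z => if h : z ∈ s then k ⟨z, h⟩ else 0
    have hyy : ∀ z, yy z ≤ D := by
      intro z
      simp only [yy]
      split_ifs with h
      · exact hk _
      · exact Nat.zero_le _
    have h1 := hcon yy hyy
    have h2 := heval (fun z => (yy z : K))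
    rw [h1] at h2
    rw [← h2]
    congr 1
    apply congrArg
    funext z
    simp only [yy, z.2, dif_pos]
    rw [hke]

end

end Pool.Agent.H562R2.Sdit
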